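import Pool.Agent.helper37.MA.Spec

set_option autoImplicit false

namespace Pool.Agent.helper37.MA

open Finset Pool.Agent.NK Pool.Agent.helper37.NF

private theorem HYP_alg (F A B C D a i j : ℕ) (ha : 1 ≤ a) (hA : 0 < A) (e1 : F * A ≤ B * C * D)
    (e2 : B ^ 2 * (2 * i + 1) ≤ 16 ^ i) (e3 : C ^ 2 * (2 * j + 1) ≤ 16 ^ j) (hij : i + j = a)
    (e4 : 16 ^ a ≤ 4 * a * A ^ 2) (u : a ≤ 2 * (2 * i + 1)) (v : a ≤ 2 * j + 1) :
    a * F ^ 2 ≤ 8 * D ^ 2 := by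
  have s1 : (F * A) ^ 2 ≤ (B * C * D) ^ 2 := Nat.pow_le_pow_left e1 2
  have s2 : (B ^ 2 * (2 * i + 1)) * (C ^ 2 * (2 * j + 1)) ≤ 16 ^ a := by
    calc (B ^ 2 * (2 * i + 1)) * (C ^ 2 * (2 * j + 1)) ≤ 16 ^ i * 16 ^ j := Nat.mul_le_mul e2 e3
      _ = 16 ^ a := by rw [← pow_add, hij]
  have s3 : (F ^ 2 * ((2 * i + 1) * (2 * j + 1))) * A ^ 2 ≤ (4 * a * D ^ 2) * A ^ 2 := by
    calc (F ^ 2 * ((2 * i + 1) * (2 * j + 1))) * A ^ 2 = (F * A) ^ 2 * ((2 * i + 1) * (2 * j + 1)) := by ring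
      _ ≤ (B * C * D) ^ 2 * ((2 * i + 1) * (2 * j + 1)) := Nat.mul_le_mul_right _ s1
      _ = ((B ^ 2 * (2 * i + 1)) * (C ^ 2 * (2 * j + 1))) * D ^ 2 := by ring
      _ ≤ 16 ^ a * D ^ 2 := Nat.mul_le_mul_right _ s2
      _ ≤ (4 * a * A ^ 2) * D ^ 2 := Nat.mul_le_mul_right _ e4
      _ = (4 * a * D ^ 2) * A ^ 2 := by ring
  have s4 : F ^ 2 * ((2 * i + 1) * (2 * j + 1)) ≤ 4 * a * D ^ 2 :=
    Nat.le_of_mul_le_mul_right s3 (pow_pos hA 2)
  have s5 : a * a ≤ 2 * ((2 * i + 1) * (2 * j + 1)) := by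
    calc a * a ≤ (2 * (2 * i + 1)) * (2 * j + 1) := Nat.mul_le_mul u v
      _ = 2 * ((2 * i + 1) * (2 * j + 1)) := by ring
  have s6 : a * (a * F ^ 2) ≤ a * (8 * D ^ 2) := by
    calc a * (a * F ^ 2) = (a * a) * F ^ 2 := by ring
      _ ≤ (2 * ((2 * i + 1) * (2 * j + 1))) * F ^ 2 := Nat.mul_le_mul_right _ s5
      _ = 2 * (F ^ 2 * ((2 * i + 1) * (2 * j + 1))) := by ring
      _ ≤ 2 * (4 * a * D ^ 2) := Nat.mul_le_mul_left _ s4
      _ = a * (8 * D ^ 2) := by ring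
  exact Nat.le_of_mul_le_mul_left s6 (by omega)

private theorem HYP_core (h2 : CB1_stmt) (h3 : CB2_stmt) (a b t i : ℕ) (ha : 4 ≤ a) (hab : a ≤ b)
    (h4 : a + b ≤ 4 * t) (h5 : 2 * t ≤ a + b) (hit : i ≤ t) (hlo : (a + 1) / 4 ≤ i)
    (hhi : i ≤ (a + 1) / 2) : a * (ff a b t i) ^ 2 ≤ 8 * ((a + b).choose t) ^ 2 := by
  have e1 := h2 a b t i (by omega) (by omega) hab hit (by omega)
  have e2 := (h3 i).1
  have e3 := (h3 (a - i)).1
  have e4 := (h3 a).2 (by omega)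
  exact HYP_alg _ _ _ _ _ a i (a - i) (by omega) (Nat.choose_pos (by omega)) e1 e2 e3 (by omega) e4
    (by omega) (by omega)

private theorem HYP_up (h1 : UPI_stmt) (a b t : ℕ) (h4 : a + b ≤ 4 * t) (m : ℕ) :
    ∀ i, i + m ≤ (a + 1) / 4 → (a + 1) / 4 ≤ t → ff a b t i ≤ ff a b t (i + m) := by
  induction m with
  | zero => intro i _ _; exact le_rfl
  | succ m ih =>
    intro i hi ht
    have q1 := ih i (by omega) ht
    have q2 := (h1 a b t (i + m) (by omega)).1 h4 (by omega)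
    exact q1.trans q2

private theorem HYP_down (h1 : UPI_stmt) (a b t : ℕ) (h5 : 2 * t ≤ a + b) (m : ℕ) :
    (a + 1) / 2 + m ≤ t → ff a b t ((a + 1) / 2 + m) ≤ ff a b t ((a + 1) / 2) := by
  induction m with
  | zero => intro _; exact le_rfl
  | succ m ih =>
    intro hm
    have q1 := ih (by omega)
    have q2 := (h1 a b t ((a + 1) / 2 + m) (by omega)).2 h5 (by omega)
    exact q2.trans q1

theorem HYP (h1 : UPI_stmt) (h2 : CB1_stmt) (h3 : CB2_stmt) : HYP_stmt := by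
  intro a b t i ha hab h4 h5 hit
  rcases Nat.lt_or_ge i ((a + 1) / 4) with hlo | hlo
  · obtain ⟨m, hm⟩ : ∃ m, i + m = (a + 1) / 4 := ⟨(a + 1) / 4 - i, by omega⟩
    have q1 := HYP_up h1 a b t h4 m i (by omega) (by omega)
    rw [hm] at q1
    have q2 := HYP_core h2 h3 a b t ((a + 1) / 4) ha hab h4 h5 (by omega) le_rfl (by omega)
    exact (Nat.mul_le_mul_left a (Nat.pow_le_pow_left q1 2)).trans q2
  · rcases Nat.lt_or_ge ((a + 1) / 2) i with hhi | hhi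
    · obtain ⟨m, hm⟩ : ∃ m, (a + 1) / 2 + m = i := ⟨i - (a + 1) / 2, by omega⟩
      have q1 := HYP_down h1 a b t h5 m (by omega)
      rw [hm] at q1
      have q2 := HYP_core h2 h3 a b t ((a + 1) / 2) ha hab h4 h5 (by omega) (by omega) le_rfl
      exact (Nat.mul_le_mul_left a (Nat.pow_le_pow_left q1 2)).trans q2
    · exact HYP_core h2 h3 a b t i ha hab h4 h5 hit hlo hhi

end Pool.Agent.helper37.MA
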